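import Pool.Agent.Y478.KS.Sum

set_option autoImplicit false

open Pool.Agent.Helper127.Kauf

namespace Pool.Agent.Results.MP_995973_gt.UnboundedGap

/-- `Λ` is Kauffman's regular isotopy invariant with values in `ℤ[a^{±1}, z^{±1}]`: it satisfies
Kauffman's rules and `Λ = 1` for the crossingless circle. -/
def IsKauffmanInvariant (Λ : Word → Raz) : Prop := KauffmanRules Λ ∧ Λ circle = 1

/-- `F` is the Kauffman polynomial `F_L(a, z) = a^{-w(D)} Λ(D)` of the oriented link with the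
diagram `D`: there is a Kauffman invariant, and `F = a^{-w(D)} Λ(D)` for every Kauffman
invariant `Λ`. -/
def IsKauffmanPolynomialOf (D : OWord) (F : Raz) : Prop :=
  (∃ Λ : Word → Raz, IsKauffmanInvariant Λ) ∧
    ∀ Λ : Word → Raz, IsKauffmanInvariant Λ → F = normalised (writhe D) (Λ (forget D))

/-- `m` is the least exponent of `a` in `F_L(a⁻¹, z)`, for the oriented link with the
diagram `D`. -/
def HasMinDeg (D : OWord) (m : ℤ) : Prop :=
  ∃ F : Raz, IsKauffmanPolynomialOf D F ∧ IsLeast (exponentsInv F) m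

theorem hasMinDeg_LN (n : ℕ) : HasMinDeg (Y478.KS.LN n) (4 * n) := by
  refine ⟨normalised (writhe (Y478.KS.LN n)) (polyL ^ n),
    ⟨⟨Y478.KS.Lam, Y478.KS.Lam_rules, Y478.KS.Lam_circle⟩, ?_⟩, Y478.KS.isLeast_LN n⟩
  intro Λ hΛ
  rw [Y478.KS.value_LN Λ hΛ.1 n, hΛ.2, smul_eq_mul, mul_one]

theorem chi_LN (n : ℕ) (hn : 1 ≤ n) : 1 - chi (Y478.KS.LN n) ≤ 3 * n := by
  have h0 : (1 - 3 * (n : ℤ)) ∈ seifertEuler (Y478.KS.LN n) :=
    ⟨Y478.KS.SN n, Y478.KS.isSurface_SN n, Relation.EqvGen.refl _, Y478.KS.euler_SN n⟩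
  by_cases h : BddAbove (seifertEuler (Y478.KS.LN n))
  · have := le_csSup h h0
    have e : chi (Y478.KS.LN n) = sSup (seifertEuler (Y478.KS.LN n)) := rfl
    omega
  · rw [chi, Int.csSup_of_not_bddAbove h]
    omega

/-- For every `n ≥ 1` there is an oriented link `L` with diagram `D` which is the boundary of a
Seifert surface `R` with `1 - χ(R) = 3 n` (so `1 - χ(L) ≤ 3 n`) such that the least exponent of `a`
in `F_L(a⁻¹, z)` is `4 n`. Hence for all real numbers `0 ≤ c < 4/3` and `C` there is an oriented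
link `L` for which this least exponent is greater than `c (1 - χ(L)) + C`. -/
theorem result :
    (∀ n : ℕ, 1 ≤ n → ∃ (D : OWord) (R : Strips), OClosed D ∧ IsSurface R ∧ boundary R = D ∧
      1 - euler R = 3 * n ∧ 1 - chi D ≤ 3 * n ∧ HasMinDeg D (4 * n)) ∧
    (∀ c C : ℝ, 0 ≤ c → c < 4 / 3 → ∃ (D : OWord) (R : Strips) (m : ℤ), OClosed D ∧
      IsSurface R ∧ boundary R = D ∧ HasMinDeg D m ∧
      c * (1 - (euler R : ℝ)) + C < (m : ℝ) ∧ c * (1 - (chi D : ℝ)) + C < (m : ℝ)) := by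
  refine ⟨fun n hn => ⟨Y478.KS.LN n, Y478.KS.SN n, Y478.KS.oclosed_LN n, Y478.KS.isSurface_SN n, rfl,
    by rw [Y478.KS.euler_SN]; ring, chi_LN n hn, hasMinDeg_LN n⟩, fun c C hc0 hc => ?_⟩
  obtain ⟨n, hn⟩ := exists_nat_gt (max 1 (C / (4 - 3 * c)))
  have hn1 : (1 : ℝ) ≤ n := ((le_max_left _ _).trans_lt hn).le
  have hn2 : C / (4 - 3 * c) < n := (le_max_right _ _).trans_lt hn
  rw [div_lt_iff₀ (by linarith)] at hn2
  have hn1' : 1 ≤ n := by exact_mod_cast hn1
  refine ⟨Y478.KS.LN n, Y478.KS.SN n, 4 * n, Y478.KS.oclosed_LN n, Y478.KS.isSurface_SN n, rfl,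
    hasMinDeg_LN n, ?_, ?_⟩
  · rw [Y478.KS.euler_SN]
    push_cast
    nlinarith
  · have h1 : (1 - (chi (Y478.KS.LN n) : ℝ)) ≤ 3 * n := by exact_mod_cast chi_LN n hn1'
    have h2 := mul_le_mul_of_nonneg_left h1 hc0
    push_cast
    nlinarith

end Pool.Agent.Results.MP_995973_gt.UnboundedGap
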